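import Mathlib
import Pool.Agent.Helper771.FreeNilp

/-!
# The variety of associative algebras over a field is logically regular

The free associative algebra (without unit) of finite rank over a field is Hopfian. So a tuple with the type of the
tuple of free generators is again a tuple of free generators, and an algebra which is isotypic to the free algebra is
isomorphic to it.
-/

set_option autoImplicit false

namespace Pool.Agent.Results.MP_7ba13c_lc.Regular

open Pool.Agent.Helper771.FreeNilp
open FirstOrder

universe u

/-- `μ ∈ A^m` and `ν ∈ B^m` have the same type (in `A` and `B`): they satisfy the same first-order formulas. -/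
def EqualTypes (P : Type u) [Field P] {A B : Type u} [NonUnitalRing A] [Module P A] [NonUnitalRing B] [Module P B]
    {m : ℕ} (μ : Fin m → A) (ν : Fin m → B) : Prop :=
  ∀ φ : (algLang P).Formula (Fin m), φ.Realize μ ↔ φ.Realize ν

/-- `A` and `B` are isotypic: the same types of `m`-tuples are realised in `A` and in `B`, for all `m ≥ 1`. -/
def Isotypic (P : Type u) [Field P] (A B : Type u) [NonUnitalRing A] [Module P A] [NonUnitalRing B] [Module P B] :
    Prop :=
  ∀ m : ℕ, 1 ≤ m → (∀ μ : Fin m → A, ∃ ν : Fin m → B, EqualTypes P μ ν) ∧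
    ∀ ν : Fin m → B, ∃ μ : Fin m → A, EqualTypes P μ ν

/-- `A` is logically separable in the variety of associative `P`-algebras (a unit is not required): every associative
`P`-algebra isotypic to `A` is isomorphic to `A`. -/
def LogicallySeparable (P : Type u) [Field P] (A : Type u) [NonUnitalRing A] [Module P A] : Prop :=
  ∀ (B : Type u) [NonUnitalRing B] [Module P B] [IsScalarTower P B B] [SMulCommClass P B B],
    Isotypic P A B → ∃ f : A →ₙₐ[P] B, Function.Bijective f

/-- The free associative `P`-algebra without unit on `x_1, …, x_r`: the semigroup algebra of the free semigroup. -/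
abbrev FreeAss (P : Type u) [Field P] (r : ℕ) : Type u := MonoidAlgebra P (FreeSemigroup (Fin r))

/-- The variety of associative `P`-algebras is logically regular. -/
def LogicallyRegular (P : Type u) [Field P] : Prop := ∀ r : ℕ, LogicallySeparable P (FreeAss P r)

section

variable {P : Type u} [Field P] {r : ℕ}

/-- the free generators -/
noncomputable def gen (i : Fin r) : FreeAss P r := MonoidAlgebra.single (FreeSemigroup.of i) 1

theorem map_realize' {A B : Type u} [NonUnitalRing A] [Module P A] [NonUnitalRing B] [Module P B] (σ : A →ₙₐ[P] B)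
    {α : Type} (v : α → A) (t : (algLang P).Term α) : σ (t.realize v) = t.realize (fun a => σ (v a)) := by
  induction t with
  | var a => rfl
  | @func l f ts ih =>
    match l, f with
    | _, AlgFn.zero => exact map_zero σ
    | _, AlgFn.add =>
      change σ ((ts 0).realize v + (ts 1).realize v) = _
      rw [map_add, ih 0, ih 1]; rfl
    | _, AlgFn.neg =>
      change σ (- (ts 0).realize v) = _
      rw [map_neg, ih 0]; rfl
    | _, AlgFn.mul =>
      change σ ((ts 0).realize v * (ts 1).realize v) = _
      rw [map_mul, ih 0, ih 1]; rfl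
    | _, AlgFn.smul c =>
      change σ (c • (ts 0).realize v) = _
      rw [map_smul, ih 0]; rfl

theorem exists_lift {B : Type u} [NonUnitalRing B] [Module P B] [IsScalarTower P B B] [SMulCommClass P B B]
    (y : Fin r → B) : ∃ f : FreeAss P r →ₙₐ[P] B, ∀ i, f (gen i) = y i := by
  refine ⟨MonoidAlgebra.liftMagma P (FreeSemigroup.lift y), fun i => ?_⟩
  unfold gen
  have h := (MonoidAlgebra.liftMagma P (A := B)).left_inv (FreeSemigroup.lift y)
  have h2 := DFunLike.congr_fun h (FreeSemigroup.of i)
  rw [FreeSemigroup.lift_of] at h2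
  exact h2

theorem exists_term (z : FreeAss P r) : ∃ t : (algLang P).Term (Fin r), t.realize (gen : Fin r → FreeAss P r) = z := by
  induction z using MonoidAlgebra.induction_linear with
  | zero => exact ⟨Language.Term.func (l := 0) (AlgFn.zero : AlgFn P 0) ![], rfl⟩
  | add a b ha hb =>
    obtain ⟨s, rfl⟩ := ha
    obtain ⟨t, rfl⟩ := hb
    exact ⟨Language.Term.func (l := 2) (AlgFn.add : AlgFn P 2) ![s, t], rfl⟩
  | single s c =>
    have key : ∀ s : FreeSemigroup (Fin r), ∃ t : (algLang P).Term (Fin r),
        t.realize (gen : Fin r → FreeAss P r) = MonoidAlgebra.single s 1 := by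
      intro s
      induction s using FreeSemigroup.recOnMul with
      | ih1 i => exact ⟨Language.Term.var i, rfl⟩
      | ih2 i s h1 h2 =>
        obtain ⟨t1, h1⟩ := h1
        obtain ⟨t2, h2⟩ := h2
        refine ⟨Language.Term.func (l := 2) (AlgFn.mul : AlgFn P 2) ![t1, t2], ?_⟩
        change t1.realize (gen : Fin r → FreeAss P r) * t2.realize (gen : Fin r → FreeAss P r) = _
        rw [h1, h2, MonoidAlgebra.single_mul_single, mul_one]
    obtain ⟨t, ht⟩ := key s
    refine ⟨Language.Term.func (l := 1) (AlgFn.smul c : AlgFn P 1) ![t], ?_⟩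
    change c • t.realize (gen : Fin r → FreeAss P r) = _
    rw [ht, MonoidAlgebra.smul_single, smul_eq_mul, mul_one]

/-! ### The free algebra is Hopfian -/

/-- the elements without monomials of degree less than `n` -/
noncomputable def J (P : Type u) [Field P] (r n : ℕ) : Submodule P (FreeAss P r) where
  carrier := {z | ∀ s : FreeSemigroup (Fin r), s.length < n → z.coeff s = 0}
  add_mem' {a b} ha hb s hs := by
    rw [MonoidAlgebra.coeff_add, Finsupp.add_apply, ha s hs, hb s hs, add_zero]
  zero_mem' s _ := rfl
  smul_mem' c a ha s hs := by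
    rw [MonoidAlgebra.coeff_smul, Finsupp.smul_apply, ha s hs, smul_zero]

theorem mem_J {n : ℕ} {z : FreeAss P r} :
    z ∈ J P r n ↔ ∀ s : FreeSemigroup (Fin r), s.length < n → z.coeff s = 0 := Iff.rfl

theorem J_mul {a b : ℕ} {x y : FreeAss P r} (hx : x ∈ J P r a) (hy : y ∈ J P r b) : x * y ∈ J P r (a + b) := by
  classical
  rw [mem_J] at *
  intro s hs
  rw [MonoidAlgebra.coeff_mul]
  unfold Finsupp.sum
  refine Finset.sum_eq_zero fun m1 _ => Finset.sum_eq_zero fun m2 _ => ?_
  beta_reduce
  split_ifs with h
  · have h1 : m1.length + m2.length < a + b := by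
      rw [← FreeSemigroup.length_mul, h]; exact hs
    rcases Nat.lt_or_ge m1.length a with h2 | h2
    · rw [hx m1 h2, zero_mul]
    · rw [hy m2 (by omega), mul_zero]
  · rfl

theorem J_mono {a b : ℕ} (h : a ≤ b) {x : FreeAss P r} (hx : x ∈ J P r b) : x ∈ J P r a :=
  fun s hs => hx s (by omega)

theorem length_pos (s : FreeSemigroup (Fin r)) : 1 ≤ s.length := by
  unfold FreeSemigroup.length; omega

theorem map_single (σ : FreeAss P r →ₙₐ[P] FreeAss P r) (s : FreeSemigroup (Fin r)) :
    σ (MonoidAlgebra.single s 1) ∈ J P r s.length := by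
  induction s using FreeSemigroup.recOnMul with
  | ih1 i =>
    rw [mem_J]
    intro s hs
    rw [FreeSemigroup.length_of] at hs
    have := length_pos s
    omega
  | ih2 i s h1 h2 =>
    have : (MonoidAlgebra.single (FreeSemigroup.of i * s) 1 : FreeAss P r) =
        MonoidAlgebra.single (FreeSemigroup.of i) 1 * MonoidAlgebra.single s 1 := by
      rw [MonoidAlgebra.single_mul_single, mul_one]
    rw [this, map_mul, FreeSemigroup.length_mul]
    exact J_mul h1 h2

theorem map_J (σ : FreeAss P r →ₙₐ[P] FreeAss P r) {n : ℕ} {z : FreeAss P r} (hz : z ∈ J P r n) :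
    σ z ∈ J P r n := by
  have h1 : z = ∑ s ∈ z.coeff.support, MonoidAlgebra.single s (z.coeff s) :=
    (MonoidAlgebra.sum_coeff_single z).symm
  rw [h1, map_sum]
  refine Submodule.sum_mem _ fun s hs => ?_
  have h2 : n ≤ s.length := by
    by_contra hcon
    push Not at hcon
    exact (Finsupp.mem_support_iff.1 hs) (hz s hcon)
  have h3 : (MonoidAlgebra.single s (z.coeff s) : FreeAss P r) = z.coeff s • MonoidAlgebra.single s 1 := by
    rw [MonoidAlgebra.smul_single, smul_eq_mul, mul_one]
  rw [h3, map_smul]
  exact Submodule.smul_mem _ _ (J_mono h2 (map_single σ s))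

/-- the coefficients of the monomials of degree at most `k` -/
noncomputable def T (P : Type u) [Field P] (r k : ℕ) :
    FreeAss P r →ₗ[P] ({s : FreeSemigroup (Fin r) // s.length ≤ k} → P) where
  toFun z s := z.coeff s.1
  map_add' _ _ := rfl
  map_smul' _ _ := rfl

theorem ker_T (k : ℕ) : LinearMap.ker (T P r k) = J P r (k + 1) := by
  ext z
  rw [LinearMap.mem_ker, mem_J]
  constructor
  · intro h s hs
    exact congrFun h ⟨s, by omega⟩
  · intro h
    funext s
    exact h s.1 (by have := s.2; omega)

theorem finite_words (k : ℕ) : Finite {s : FreeSemigroup (Fin r) // s.length ≤ k} := by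
  have h1 : Finite {l : List (Fin r) // l.length ≤ k} := List.finite_length_le (Fin r) k
  refine Finite.of_injective (β := Fin r × {l : List (Fin r) // l.length ≤ k})
    (fun s => (s.1.head, ⟨s.1.tail, by have := s.2; unfold FreeSemigroup.length at this; omega⟩)) ?_
  rintro ⟨⟨a, l⟩, ha⟩ ⟨⟨b, l'⟩, hb⟩ h
  simp only [Prod.mk.injEq, Subtype.mk.injEq] at h
  obtain ⟨rfl, rfl⟩ := h
  rfl

/-- Surjective endomorphisms of the free algebra are injective. -/
theorem hopfian (σ : FreeAss P r →ₙₐ[P] FreeAss P r) (hσ : Function.Surjective σ) : Function.Injective σ := by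
  rw [injective_iff_map_eq_zero]
  intro z hz
  have key : ∀ k : ℕ, z ∈ J P r (k + 1) := by
    intro k
    have hfin := finite_words (r := r) k
    have : Fintype {s : FreeSemigroup (Fin r) // s.length ≤ k} := Fintype.ofFinite _
    let I := LinearMap.ker (T P r k)
    have hI : I ≤ I.comap (σ : FreeAss P r →ₗ[P] FreeAss P r) := by
      intro w hw
      change σ w ∈ LinearMap.ker (T P r k)
      have hw' : w ∈ LinearMap.ker (T P r k) := hw
      rw [ker_T] at hw' ⊢
      exact map_J σ hw'
    have hfd : Module.Finite P (FreeAss P r ⧸ I) :=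
      Module.Finite.equiv (T P r k).quotKerEquivRange.symm
    let τ : (FreeAss P r ⧸ I) →ₗ[P] (FreeAss P r ⧸ I) := I.mapQ I (σ : FreeAss P r →ₗ[P] FreeAss P r) hI
    have hτ : Function.Surjective τ := by
      intro w
      obtain ⟨w, rfl⟩ := I.mkQ_surjective w
      obtain ⟨v, rfl⟩ := hσ w
      exact ⟨I.mkQ v, rfl⟩
    have hτi : Function.Injective τ := LinearMap.injective_iff_surjective.2 hτ
    have h1 : τ (I.mkQ z) = τ 0 := by
      rw [map_zero]
      change I.mkQ (σ z) = 0
      rw [hz, map_zero]
    have h2 := hτi h1
    rw [Submodule.mkQ_apply, Submodule.Quotient.mk_eq_zero] at h2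
    rw [← ker_T]
    exact h2
  ext s
  exact key s.length s (by omega)

/-! ### Separability -/

/-- a tuple of the type of the free generators generates -/
theorem generates {μ : Fin r → FreeAss P r} (h : EqualTypes P (gen : Fin r → FreeAss P r) μ) (z : FreeAss P r) :
    ∃ t : (algLang P).Term (Fin r), z = t.realize μ := by
  choose t ht using fun i => exists_term (μ i)
  let Φ : (algLang P).Formula (Fin r) :=
    Language.Formula.iExs (Fin r)
      (Language.Formula.iInf (fun i : Fin r =>
        Language.Term.equal (Language.Term.var (Sum.inl i : Fin r ⊕ Fin r)) ((t i).relabel Sum.inr)))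
  have hΦ : ∀ z : Fin r → FreeAss P r, Φ.Realize z ↔ ∃ y : Fin r → FreeAss P r, ∀ i, z i = (t i).realize y := by
    intro z
    rw [Language.Formula.realize_iExs]
    refine exists_congr fun y => ?_
    rw [Language.Formula.realize_iInf]
    refine forall_congr' fun i => ?_
    rw [Language.Formula.realize_equal, Language.Term.realize_relabel]
    rfl
  have h1 : Φ.Realize μ := (hΦ μ).2 ⟨gen, fun i => (ht i).symm⟩
  obtain ⟨y, hy⟩ := (hΦ gen).1 ((h Φ).2 h1)
  obtain ⟨σ, hσ⟩ := exists_lift (P := P) y
  have hσy : (fun i => σ (gen i)) = y := funext hσ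
  have hσμ : (fun i => σ (μ i)) = gen := by
    funext i
    rw [← ht i, map_realize', hσy, ← hy i]
  have hsurj : Function.Surjective σ := by
    intro w
    obtain ⟨s, rfl⟩ := exists_term w
    exact ⟨s.realize μ, by rw [map_realize', hσμ]⟩
  obtain ⟨s, hs⟩ := exists_term (σ z)
  refine ⟨s, hopfian σ hsurj ?_⟩
  rw [map_realize', hσμ, hs]

theorem separable_pos (hr : 1 ≤ r) : LogicallySeparable P (FreeAss P r) := by
  intro B _ _ _ _ hiso
  obtain ⟨y, hy⟩ := (hiso r hr).1 gen
  obtain ⟨f, hf⟩ := exists_lift (P := P) y
  have hfy : (fun i => f (gen i)) = y := funext hf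
  refine ⟨f, ?_, ?_⟩
  · intro a b hab
    obtain ⟨s, rfl⟩ := exists_term a
    obtain ⟨t, rfl⟩ := exists_term b
    rw [map_realize', map_realize', hfy] at hab
    have := (hy (Language.Term.equal s t)).2 (by rw [Language.Formula.realize_equal]; exact hab)
    rw [Language.Formula.realize_equal] at this
    exact this
  · intro z
    obtain ⟨μ, hμ⟩ := (hiso (r + 1) (by omega)).2 (Fin.snoc y z)
    have h3 : (Fin.snoc y z : Fin (r + 1) → B) ∘ (fun i : Fin r => i.castSucc) = y := by
      funext i
      simp [Function.comp_apply]
    have h1 : EqualTypes P (gen : Fin r → FreeAss P r) (fun i : Fin r => μ i.castSucc) := by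
      intro φ
      rw [hy φ]
      have h2 := hμ (φ.relabel (fun i : Fin r => i.castSucc))
      rw [Language.Formula.realize_relabel, Language.Formula.realize_relabel, h3] at h2
      exact h2.symm
    obtain ⟨t, h4⟩ := generates h1 (μ (Fin.last r))
    have h6 := (hμ (Language.Term.equal (Language.Term.var (Fin.last r))
      (t.relabel (fun i : Fin r => i.castSucc)))).1 (by
        rw [Language.Formula.realize_equal, Language.Term.realize_relabel]
        exact h4)
    rw [Language.Formula.realize_equal, Language.Term.realize_relabel, h3] at h6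
    have h7 : z = t.realize y := by
      simpa using h6
    refine ⟨t.realize gen, ?_⟩
    rw [map_realize', hfy, h7]

theorem free_zero (z : FreeAss P 0) : z = 0 := by
  ext s
  exact s.head.elim0

theorem separable_zero : LogicallySeparable P (FreeAss P 0) := by
  intro B _ _ _ _ hiso
  have hB : ∀ z : B, z = 0 := by
    intro z
    obtain ⟨μ, hμ⟩ := (hiso 1 le_rfl).2 (fun _ => z)
    have h1 := (hμ (Language.Term.equal (Language.Term.var 0)
      (Language.Term.func (l := 0) (AlgFn.zero : AlgFn P 0) ![]))).1 (by
      rw [Language.Formula.realize_equal]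
      exact free_zero (μ 0))
    rw [Language.Formula.realize_equal] at h1
    exact h1
  exact ⟨0, fun a b _ => by rw [free_zero a, free_zero b], fun z => ⟨0, by rw [hB z]; rfl⟩⟩

end

/-- **The theorem.** For every field `P` the variety of associative `P`-algebras is logically regular: every free
algebra of finite rank is logically separable. -/
theorem result (P : Type u) [Field P] : LogicallyRegular P := by
  intro r
  rcases Nat.eq_zero_or_pos r with rfl | hr
  · exact separable_zero
  · exact separable_pos hr

end Pool.Agent.Results.MP_7ba13c_lc.Regular
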